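import Pool.Agent.H154R5.NK.Final

/-!
# `N(k, √k + (log k)/25) = O(k⁵)` (MP_164296_co)

A polynomial bound for the discrepancy function `N(k, ℓ)` of long arithmetic progressions with `ℓ` above the square root
barrier: for every `k ≥ 1` the number `N(k, √k + (log k)/25)` exists and is at most `C k⁵`, with one absolute constant `C`.
-/

set_option autoImplicit false

namespace Pool.Agent.Results.MP_164296_co.BeyondSquareRoot

open Finset

/-- `Forces N k ℓ`: for every function `f` with values `±1` on `{1, …, N}` there is a `k`-term arithmetic progression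
`a, a + d, …, a + (k - 1) d` in `{1, …, N}` (with `a ≥ 1`, `d ≥ 1`) on which the sum of `f` has absolute value at least `ℓ`.
So `N(k, ℓ)` of the problem is the least `N` with `Forces N k ℓ`. -/
def Forces (N k : ℕ) (ℓ : ℝ) : Prop :=
  ∀ f : ℕ → ℤ, (∀ n, 1 ≤ n → n ≤ N → f n = 1 ∨ f n = -1) →
    ∃ a d : ℕ, 1 ≤ a ∧ 1 ≤ d ∧ a + (k - 1) * d ≤ N ∧
      ℓ ≤ |((∑ j ∈ range k, f (a + j * d) : ℤ) : ℝ)|

/-- For every `k ≥ 1` the least `N` with `Forces N k (√k + (log k)/25)`, that is `N(k, √k + (log k)/25)`, exists and is at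
most `C k⁵`. -/
theorem result : ∃ C : ℕ, ∀ k : ℕ, 1 ≤ k →
    ∃ N : ℕ, IsLeast {N : ℕ | Forces N k (√k + Real.log k / 25)} N ∧ N ≤ C * k ^ 5 := by
  obtain ⟨C, hC⟩ := Pool.Agent.H154R5.NK.final
  refine ⟨C, fun k hk => ?_⟩
  have hmem : C * k ^ 5 ∈ {N : ℕ | Forces N k (√k + Real.log k / 25)} :=
    fun f hf => hC k hk (C * k ^ 5) le_rfl f hf
  exact ⟨sInf {N : ℕ | Forces N k (√k + Real.log k / 25)}, ⟨Nat.sInf_mem ⟨_, hmem⟩, fun _ h => Nat.sInf_le h⟩,
    Nat.sInf_le hmem⟩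

end Pool.Agent.Results.MP_164296_co.BeyondSquareRoot
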